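import Mathlib

set_option autoImplicit false

namespace Pool.Agent.H.MP_a8adbc_co

open Finset

lemma digits_zero (M : ℤ) : ∀ (n : ℕ) (f : ℕ → ℤ) (Z : ℤ), 0 < M → (∀ j < n, |f j| < M) →
    ∑ j ∈ range n, f j * M ^ j + M ^ n * Z = 0 → (∀ j < n, f j = 0) ∧ Z = 0 := by
  intro n
  induction n with
  | zero => intro f Z _ _ h; simpa using h
  | succ n ih =>
    intro f Z hM hf h
    rw [Finset.sum_range_succ'] at h
    have e : ∑ j ∈ range n, f (j + 1) * M ^ (j + 1) = M * ∑ j ∈ range n, f (j + 1) * M ^ j := by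
      rw [Finset.mul_sum]; apply Finset.sum_congr rfl; intro j _; ring
    rw [e] at h
    have hd : M ∣ f 0 := ⟨-(∑ j ∈ range n, f (j + 1) * M ^ j + M ^ n * Z), by
      rw [pow_succ] at h; linear_combination h⟩
    have h0 : f 0 = 0 := Int.eq_zero_of_abs_lt_dvd hd (hf 0 (by omega))
    have h1 : ∑ j ∈ range n, f (j + 1) * M ^ j + M ^ n * Z = 0 := by
      have : M * (∑ j ∈ range n, f (j + 1) * M ^ j + M ^ n * Z) = 0 := by
        rw [h0, pow_succ] at h; linear_combination h
      rcases mul_eq_zero.1 this with h2 | h2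
      · omega
      · exact h2
    obtain ⟨h2, h3⟩ := ih (fun j => f (j + 1)) Z hM (fun j hj => hf (j + 1) (by omega)) h1
    refine ⟨fun j hj => ?_, h3⟩
    rcases j with _ | j
    · exact h0
    · exact h2 j (by omega)

/-- If cliques `K i` cover all vertices and edges and each meets every maximal stable set,
the graph is equistable. -/
lemma equi_of_strong {V ι : Type} [Fintype V] [Fintype ι] [DecidableEq V] (H : SimpleGraph V)
    (K : ι → Finset V) (hK : ∀ i, H.IsClique (K i : Set V)) (hv : ∀ v, ∃ i, v ∈ K i)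
    (he : ∀ u v, H.Adj u v → ∃ i, u ∈ K i ∧ v ∈ K i) (hne : Nonempty ι)
    (hs : ∀ S : Finset V, Maximal (fun s : Finset V => H.IsIndepSet (s : Set V)) S →
      ∀ i, ∃ v ∈ S, v ∈ K i) :
    ∃ φ : V → ℝ, (∀ v, 0 < φ v) ∧ ∀ S : Finset V,
      (Maximal (fun s : Finset V => H.IsIndepSet (s : Set V)) S ↔ ∑ v ∈ S, φ v = 1) := by
  classical
  set M : ℤ := Fintype.card V + 2 with hM
  have hM0 : 0 < M := by positivity
  let e := Fintype.equivFin ι
  let wt : ι → ℤ := fun i => M ^ (e i : ℕ)
  have hwt : ∀ i, 0 < wt i := fun i => pow_pos hM0 _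
  let W : V → ℤ := fun v => ∑ i, if v ∈ K i then wt i else 0
  let D : ℤ := ∑ i, wt i
  have hD : 0 < D := Finset.sum_pos (fun i _ => hwt i) Finset.univ_nonempty
  have hW : ∀ v, 0 < W v := by
    intro v
    obtain ⟨i, hi⟩ := hv v
    refine Finset.sum_pos' (fun j _ => ?_) ⟨i, mem_univ _, by simp [hi, hwt]⟩
    split_ifs
    · exact (hwt j).le
    · exact le_rfl
  have hsum : ∀ S : Finset V, ∑ v ∈ S, W v = ∑ i, ((S.filter (· ∈ K i)).card : ℤ) * wt i := by
    intro S
    simp only [W]
    rw [Finset.sum_comm]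
    apply Finset.sum_congr rfl
    intro i _
    rw [← Finset.sum_filter, Finset.sum_const, nsmul_eq_mul]
  have key : ∀ S : Finset V, ∑ v ∈ S, W v = D ↔ ∀ i, (S.filter (· ∈ K i)).card = 1 := by
    intro S
    rw [hsum]
    constructor
    · intro h
      let f : ℕ → ℤ := fun j => if hj : j < Fintype.card ι then
        ((S.filter (· ∈ K (e.symm ⟨j, hj⟩))).card : ℤ) - 1 else 0
      have h1 : ∑ j ∈ range (Fintype.card ι), f j * M ^ j + M ^ (Fintype.card ι) * 0 = 0 := by
        rw [Finset.sum_range, mul_zero, add_zero, ← e.sum_comp]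
        have : ∀ i, f (e i) * M ^ (e i : ℕ) =
            ((S.filter (· ∈ K i)).card : ℤ) * wt i - wt i := by
          intro i
          simp only [f, (e i).2, dif_pos, Fin.eta, Equiv.symm_apply_apply, wt]
          ring
        simp only [this, Finset.sum_sub_distrib]
        rw [h]; simp [D]
      have h2 := (digits_zero M _ f 0 hM0 (fun j hj => by
        simp only [f, hj, dif_pos]
        have : (S.filter (· ∈ K (e.symm ⟨j, hj⟩))).card ≤ Fintype.card V := Finset.card_le_univ _
        rw [abs_lt]; constructor <;> omega) h1).1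
      intro i
      have := h2 (e i) (e i).2
      simp only [f, (e i).2, dif_pos, Fin.eta, Equiv.symm_apply_apply] at this
      omega
    · intro h
      simp [h, D]
  refine ⟨fun v => (W v : ℝ) / D, fun v => by have := hW v; positivity, fun S => ?_⟩
  have hD' : (D : ℝ) ≠ 0 := by exact_mod_cast hD.ne'
  rw [← Finset.sum_div, div_eq_one_iff_eq hD']
  have : (∑ v ∈ S, (W v : ℝ) = D) ↔ ∑ v ∈ S, W v = D := by exact_mod_cast Iff.rfl
  rw [this, key]
  constructor
  · intro h i
    obtain ⟨v, hv1, hv2⟩ := hs S h i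
    rw [Finset.card_eq_one]
    refine ⟨v, ?_⟩
    ext u
    simp only [mem_filter, mem_singleton]
    constructor
    · rintro ⟨hu1, hu2⟩
      by_contra hne
      exact h.prop hu1 hv1 hne (hK i hu2 hv2 hne)
    · rintro rfl; exact ⟨hv1, hv2⟩
  · intro h
    have hI : H.IsIndepSet (S : Set V) := by
      intro u hu v hv' hne hadj
      obtain ⟨i, h1, h2⟩ := he u v hadj
      exact hne (Finset.card_le_one.1 (h i).le u (by simpa using ⟨hu, h1⟩) v
        (by simpa using ⟨hv', h2⟩))
    refine ⟨hI, fun T hT hST v hvT => ?_⟩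
    obtain ⟨i, hi⟩ := hv v
    obtain ⟨u, hu⟩ := Finset.card_pos.1 (by rw [h i]; norm_num : 0 < (S.filter (· ∈ K i)).card)
    rw [mem_filter] at hu
    by_contra hvS
    have hne : u ≠ v := fun h => hvS (h ▸ hu.1)
    exact hT (hST hu.1) hvT hne (hK i hu.2 hi hne)

end Pool.Agent.H.MP_a8adbc_co
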