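import Mathlib
import Pool.Agent.H.MP_59918e_co.Main
import Pool.Agent.H.MP_a8adbc_co.Gen

set_option autoImplicit false

namespace Pool.Agent.H.MP_a8adbc_co

open Finset

abbrev X := Fin 14 × Fin 3

abbrev G0 : SimpleGraph (Fin 14) := Pool.Agent.H.MP_59918e_co.G

abbrev w0 (a : Fin 14) : ℕ := Pool.Agent.H.MP_59918e_co.w a.val

abbrev P := {p : X × X // p.1 ≠ p.2 ∧ ¬ G0.Adj p.1.1 p.2.1}

abbrev V := X ⊕ P

def adj : V → V → Prop
  | .inl x, .inl y => G0.Adj x.1 y.1
  | .inl x, .inr p => x ≠ p.1.1 ∧ x ≠ p.1.2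
  | .inr p, .inl x => x ≠ p.1.1 ∧ x ≠ p.1.2
  | .inr p, .inr q => p ≠ q

def G : SimpleGraph V where
  Adj := adj
  symm := ⟨by
    rintro (x | p) (y | q) h
    · exact G0.adj_symm h
    · exact h
    · exact h
    · exact Ne.symm h⟩
  loopless := ⟨by
    rintro (x | p) h
    · exact G0.irrefl h
    · exact h rfl⟩

def tri (p : P) : Finset V := {.inl p.1.1, .inl p.1.2, .inr p}

def blow (S : Finset (Fin 14)) : Finset V :=
  (univ.filter (fun x : X => x.1 ∈ S)).map ⟨Sum.inl, Sum.inl_injective⟩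

lemma mem_blow_inl (S : Finset (Fin 14)) (x : X) : (Sum.inl x : V) ∈ blow S ↔ x.1 ∈ S := by
  simp [blow]

lemma not_mem_blow_inr (S : Finset (Fin 14)) (p : P) : (Sum.inr p : V) ∉ blow S := by
  simp [blow]

lemma mem_tri_inl (p : P) (x : X) : (Sum.inl x : V) ∈ tri p ↔ x = p.1.1 ∨ x = p.1.2 := by
  simp [tri]

lemma mem_tri_inr (p q : P) : (Sum.inr q : V) ∈ tri p ↔ q = p := by
  simp [tri]

lemma tri_indep (p : P) : G.IsIndepSet (tri p : Set V) := by
  rintro (x | q) hu (y | r) hv hne hadj
  · rw [mem_coe, mem_tri_inl] at hu hv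
    rcases hu with rfl | rfl <;> rcases hv with rfl | rfl
    · exact hne rfl
    · exact p.2.2 hadj
    · exact p.2.2 (G0.adj_symm hadj)
    · exact hne rfl
  · rw [mem_coe, mem_tri_inl] at hu
    rw [mem_coe, mem_tri_inr] at hv
    subst hv
    rcases hu with h | h
    · exact hadj.1 h
    · exact hadj.2 h
  · rw [mem_coe, mem_tri_inl] at hv
    rw [mem_coe, mem_tri_inr] at hu
    subst hu
    rcases hv with h | h
    · exact hadj.1 h
    · exact hadj.2 h
  · rw [mem_coe, mem_tri_inr] at hu hv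
    exact hne (by rw [hu, hv])

lemma sub_tri {T : Finset V} (hT : G.IsIndepSet (T : Set V)) {p : P} (hp : Sum.inr p ∈ T) :
    T ⊆ tri p := by
  rintro (x | q) h
  · rw [mem_tri_inl]
    by_contra hc
    push Not at hc
    exact hT h hp (by simp) hc
  · rw [mem_tri_inr]
    by_contra hc
    exact hT h hp (by simpa using hc) hc

lemma blow_indep {S : Finset (Fin 14)} (hS : G0.IsIndepSet (S : Set (Fin 14))) :
    G.IsIndepSet (blow S : Set V) := by
  rintro (x | q) hu (y | r) hv hne hadj
  · rw [mem_coe, mem_blow_inl] at hu hv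
    exact hS hu hv (G0.ne_of_adj hadj) hadj
  · exact not_mem_blow_inr _ _ hv
  · exact not_mem_blow_inr _ _ hu
  · exact not_mem_blow_inr _ _ hu

lemma tri_max (p : P) : Maximal (fun s : Finset V => G.IsIndepSet (s : Set V)) (tri p) :=
  ⟨tri_indep p, fun _ hT h => sub_tri hT (h ((mem_tri_inr p p).2 rfl))⟩

lemma three (a : Fin 14) (u v : X) : ∃ i : Fin 3, (a, i) ≠ u ∧ (a, i) ≠ v := by
  obtain ⟨u1, u2⟩ := u
  obtain ⟨v1, v2⟩ := v
  have : ∀ j k : Fin 3, ∃ i : Fin 3, i ≠ j ∧ i ≠ k := by decide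
  obtain ⟨i, h1, h2⟩ := this u2 v2
  exact ⟨i, fun h => h1 (congrArg Prod.snd h), fun h => h2 (congrArg Prod.snd h)⟩

def proj (T : Finset V) : Finset (Fin 14) := univ.filter (fun a => ∃ i, Sum.inl (a, i) ∈ T)

lemma proj_indep {T : Finset V} (hT : G.IsIndepSet (T : Set V)) :
    G0.IsIndepSet (proj T : Set (Fin 14)) := by
  intro a ha b hb hne hadj
  simp only [proj, coe_filter, mem_univ, true_and, Set.mem_ofPred_eq] at ha hb
  obtain ⟨i, hi⟩ := ha
  obtain ⟨j, hj⟩ := hb
  exact hT hi hj (by simp [hne]) hadj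

lemma max_nonempty {S : Finset (Fin 14)}
    (hS : Maximal (fun s : Finset (Fin 14) => G0.IsIndepSet (s : Set (Fin 14))) S) :
    S.Nonempty := by
  have := (Pool.Agent.H.MP_59918e_co.equi S).1 hS
  by_contra h
  rw [not_nonempty_iff_eq_empty] at h
  subst h
  simp at this

lemma blow_max {S : Finset (Fin 14)}
    (hS : Maximal (fun s : Finset (Fin 14) => G0.IsIndepSet (s : Set (Fin 14))) S) :
    Maximal (fun s : Finset V => G.IsIndepSet (s : Set V)) (blow S) := by
  refine ⟨blow_indep hS.prop, fun T hT h => ?_⟩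
  rintro (x | p) hv
  · rw [mem_blow_inl]
    have h1 : S ≤ proj T := by
      intro a ha
      simp only [proj, mem_filter, mem_univ, true_and]
      exact ⟨0, h ((mem_blow_inl S (a, 0)).2 ha)⟩
    apply hS.le_of_ge (proj_indep hT) h1
    simp only [proj, mem_filter, mem_univ, true_and]
    exact ⟨x.2, hv⟩
  · exfalso
    obtain ⟨a, ha⟩ := max_nonempty hS
    obtain ⟨i, h1, h2⟩ := three a p.1.1 p.1.2
    have := sub_tri hT hv (h ((mem_blow_inl S (a, i)).2 ha))
    rw [mem_tri_inl] at this
    tauto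

lemma max_cases {T : Finset V} (hT : Maximal (fun s : Finset V => G.IsIndepSet (s : Set V)) T) :
    (∃ p, T = tri p) ∨ ∃ S, Maximal (fun s : Finset (Fin 14) => G0.IsIndepSet (s : Set (Fin 14))) S
      ∧ T = blow S := by
  by_cases h : ∃ p, Sum.inr p ∈ T
  · obtain ⟨p, hp⟩ := h
    left
    exact ⟨p, le_antisymm (sub_tri hT.prop hp) (hT.le_of_ge (tri_indep p) (sub_tri hT.prop hp))⟩
  · right
    obtain ⟨S, h1, h2⟩ := Finite.exists_le_maximal
      (p := fun s : Finset (Fin 14) => G0.IsIndepSet (s : Set (Fin 14))) (proj_indep hT.prop)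
    have h3 : T ≤ blow S := by
      rintro (x | p) hv
      · rw [mem_blow_inl]
        apply h1
        simp only [proj, mem_filter, mem_univ, true_and]
        exact ⟨x.2, hv⟩
      · exact absurd ⟨p, hv⟩ h
    exact ⟨S, h2, le_antisymm h3 (hT.le_of_ge (blow_indep h2.prop) h3)⟩

def dl (x : X) : ℤ := ![25 ^ x.1.val, 5 * 25 ^ x.1.val, -6 * 25 ^ x.1.val] x.2

def W (x : X) : ℤ := 25 ^ 14 * (w0 x.1 : ℤ) + dl x

def D : ℤ := 25 ^ 14 * 462

lemma W_bd : ∀ x : X, 0 < W x ∧ 4 * W x < D := by decide +kernel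

lemma w0_pos : ∀ a : Fin 14, 0 < w0 a := by decide +kernel

lemma generic (c : X → ℤ) (hc : ∀ x, -1 ≤ c x ∧ c x ≤ 1) (z : ℤ)
    (h : ∑ x, c x * W x = 25 ^ 14 * z) :
    (∀ a i, c (a, i) = c (a, 0)) ∧ ∑ a, 3 * c (a, 0) * (w0 a : ℤ) = z := by
  let f : ℕ → ℤ := fun j => if hj : j < 14 then
    c (⟨j, hj⟩, 0) + 5 * c (⟨j, hj⟩, 1) - 6 * c (⟨j, hj⟩, 2) else 0
  have h1 : ∑ j ∈ range 14, f j * 25 ^ j + 25 ^ 14 * (∑ x, c x * (w0 x.1 : ℤ) - z) = 0 := by
    rw [Finset.sum_range, mul_sub, ← h, Finset.mul_sum, Fintype.sum_prod_type,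
      Fintype.sum_prod_type, ← Finset.sum_sub_distrib, ← Finset.sum_add_distrib]
    apply Finset.sum_eq_zero
    intro a _
    simp only [f, a.2, dif_pos, Fin.eta, Fin.sum_univ_three, W, dl]
    simp
    ring
  obtain ⟨h2, h3⟩ := digits_zero 25 14 f _ (by norm_num) (fun j hj => by
    simp only [f, hj, dif_pos]
    have := hc (⟨j, hj⟩, 0)
    have := hc (⟨j, hj⟩, 1)
    have := hc (⟨j, hj⟩, 2)
    rw [abs_lt]; constructor <;> omega) h1
  have h4 : ∀ a i, c (a, i) = c (a, 0) := by
    intro a i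
    have e := h2 a a.2
    simp only [f, a.2, dif_pos, Fin.eta] at e
    have := hc (a, 0)
    have := hc (a, 1)
    have := hc (a, 2)
    fin_cases i
    · rfl
    · show c (a, 1) = c (a, 0); omega
    · show c (a, 2) = c (a, 0); omega
  refine ⟨h4, ?_⟩
  rw [sub_eq_zero, Fintype.sum_prod_type] at h3
  rw [← h3]
  apply Finset.sum_congr rfl
  intro a _
  rw [Fin.sum_univ_three, h4 a 1, h4 a 2]
  ring

def WV : V → ℤ
  | .inl x => W x
  | .inr p => D - W p.1.1 - W p.1.2

lemma WV_pos : ∀ v, 0 < WV v := by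
  rintro (x | p)
  · exact (W_bd x).1
  · have := W_bd p.1.1
    have := W_bd p.1.2
    simp only [WV]; omega

lemma sum_split (T : Finset V) : ∑ v ∈ T, WV v =
    ∑ x, (if Sum.inl x ∈ T then 1 else 0) * W x + ∑ p ∈ univ.filter (fun p : P => Sum.inr p ∈ T),
      WV (.inr p) := by
  have : ∑ v ∈ T, WV v = ∑ v, if v ∈ T then WV v else 0 := by
    rw [← Finset.sum_filter]; simp
  rw [this, Fintype.sum_sum_type, Finset.sum_filter]
  congr 1
  apply Finset.sum_congr rfl
  intro x _
  split_ifs <;> simp [WV]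

lemma key (T : Finset V) :
    Maximal (fun s : Finset V => G.IsIndepSet (s : Set V)) T ↔ ∑ v ∈ T, WV v = D := by
  constructor
  · intro h
    rcases max_cases h with ⟨p, rfl⟩ | ⟨S, hS, rfl⟩
    · have h1 := p.2.1
      rw [tri, Finset.sum_insert (by simp [h1]), Finset.sum_insert (by simp), Finset.sum_singleton]
      simp only [WV]; ring
    · have h1 := (Pool.Agent.H.MP_59918e_co.equi S).1 hS
      have h2 : ∑ a ∈ S, (w0 a : ℤ) = 154 := by exact_mod_cast h1
      rw [blow, Finset.sum_map, Finset.sum_filter, Fintype.sum_prod_type]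
      have : ∀ a : Fin 14, (∑ i : Fin 3, if (a, i).1 ∈ S then
          WV ((⟨Sum.inl, Sum.inl_injective⟩ : X ↪ V) (a, i)) else 0) =
          if a ∈ S then 25 ^ 14 * 3 * (w0 a : ℤ) else 0 := by
        intro a
        split_ifs with ha
        · simp only [Fin.sum_univ_three, Function.Embedding.coeFn_mk, WV, W, dl]
          simp
          ring
        · simp
      simp only [this]
      rw [← Finset.sum_filter, ← Finset.mul_sum]
      simp only [filter_mem_eq_inter, univ_inter]
      rw [h2, D]; norm_num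
  · intro h
    by_cases hp : ∃ p, Sum.inr p ∈ T
    · obtain ⟨p, hp⟩ := hp
      have huniq : ∀ q, Sum.inr q ∈ T → q = p := by
        intro q hq
        by_contra hne
        have h1 : ({Sum.inr q, Sum.inr p} : Finset V) ⊆ T := by
          intro v hv
          simp only [mem_insert, mem_singleton] at hv
          rcases hv with rfl | rfl <;> assumption
        have h2 := Finset.sum_le_sum_of_subset_of_nonneg h1 (f := WV) (fun v _ _ => (WV_pos v).le)
        rw [Finset.sum_pair (by simpa using hne), h] at h2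
        have := W_bd p.1.1
        have := W_bd p.1.2
        have := W_bd q.1.1
        have := W_bd q.1.2
        simp only [WV] at h2
        omega
      have hf : univ.filter (fun q : P => Sum.inr q ∈ T) = {p} := by
        ext q
        simp only [mem_filter, mem_univ, true_and, mem_singleton]
        exact ⟨huniq q, fun e => e ▸ hp⟩
      rw [sum_split, hf, Finset.sum_singleton] at h
      let c : X → ℤ := fun x => (if Sum.inl x ∈ T then 1 else 0) - (if x = p.1.1 then 1 else 0) -
        (if x = p.1.2 then 1 else 0)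
      have hne := p.2.1
      have hc : ∀ x, -1 ≤ c x ∧ c x ≤ 1 := by
        intro x
        simp only [c]
        split_ifs with h1 h2 h3 h3 h2 h3 h3 <;> first | omega | exact absurd (h2.symm.trans h3) hne
      have hs : ∑ x, c x * W x = 25 ^ 14 * 0 := by
        simp only [c, sub_mul, Finset.sum_sub_distrib, ite_mul, one_mul, zero_mul,
          Finset.sum_ite_eq', mem_univ, if_true]
        simp only [WV, ite_mul, one_mul, zero_mul] at h
        omega
      obtain ⟨h1, h2⟩ := generic c hc 0 hs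
      have hnn : ∀ a, 0 ≤ c (a, 0) := by
        intro a
        obtain ⟨i, e1, e2⟩ := three a p.1.1 p.1.2
        rw [← h1 a i]
        simp only [c, e1, e2, if_false]
        split_ifs <;> norm_num
      have h3 := (Finset.sum_eq_zero_iff_of_nonneg (fun a _ => by
        have := hnn a
        positivity)).1 h2
      have h4 : ∀ x, c x = 0 := by
        rintro ⟨a, i⟩
        rw [h1 a i]
        have e := h3 a (mem_univ _)
        have : (0 : ℤ) < w0 a := by exact_mod_cast w0_pos a
        rcases mul_eq_zero.1 e with e | e <;> omega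
      have : T = tri p := by
        ext v
        rcases v with x | q
        · rw [mem_tri_inl]
          have := h4 x
          simp only [c] at this
          split_ifs at this <;> simp_all
        · rw [mem_tri_inr]
          exact ⟨huniq q, fun e => e ▸ hp⟩
      rw [this]
      exact tri_max p
    · have hf : univ.filter (fun q : P => Sum.inr q ∈ T) = ∅ := by
        ext q
        simp only [mem_filter, mem_univ, true_and, notMem_empty, iff_false]
        exact fun e => hp ⟨q, e⟩
      rw [sum_split, hf, Finset.sum_empty, add_zero] at h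
      obtain ⟨h1, h2⟩ := generic (fun x => if Sum.inl x ∈ T then 1 else 0) (fun x => by
        split_ifs <;> norm_num) 462 h
      let S : Finset (Fin 14) := univ.filter (fun a => Sum.inl (a, 0) ∈ T)
      have hS : ∑ a ∈ S, w0 a = 154 := by
        have : ∑ a ∈ S, (w0 a : ℤ) = 154 := by
          have e : ∑ a, 3 * (if (Sum.inl (a, 0) : V) ∈ T then (1 : ℤ) else 0) * (w0 a : ℤ) =
              3 * ∑ a ∈ S, (w0 a : ℤ) := by
            rw [Finset.sum_filter, Finset.mul_sum]
            apply Finset.sum_congr rfl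
            intro a _
            split_ifs <;> simp
          rw [e] at h2
          omega
        exact_mod_cast this
      have : T = blow S := by
        ext v
        rcases v with ⟨a, i⟩ | q
        · rw [mem_blow_inl]
          have := h1 a i
          simp only [S, mem_filter, mem_univ, true_and]
          split_ifs at this with e1 e2 e2
          · exact iff_of_true e1 e2
          · omega
          · omega
          · exact iff_of_false e1 e2
        · exact ⟨fun e => absurd ⟨q, e⟩ hp, fun e => absurd e (not_mem_blow_inr _ _)⟩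
      rw [this]
      exact blow_max ((Pool.Agent.H.MP_59918e_co.equi S).2 hS)

lemma equi_G : ∃ φ : V → ℝ, (∀ v, 0 < φ v) ∧ ∀ S : Finset V,
    (Maximal (fun s : Finset V => G.IsIndepSet (s : Set V)) S ↔ ∑ v ∈ S, φ v = 1) := by
  have hD : (0 : ℝ) < D := by unfold D; positivity
  refine ⟨fun v => (WV v : ℝ) / D, fun v => by have := WV_pos v; positivity, fun S => ?_⟩
  rw [← Finset.sum_div, div_eq_one_iff_eq hD.ne', key]
  exact_mod_cast Iff.rfl

lemma equi_Gc : ∃ φ : V → ℝ, (∀ v, 0 < φ v) ∧ ∀ S : Finset V,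
    (Maximal (fun s : Finset V => Gᶜ.IsIndepSet (s : Set V)) S ↔ ∑ v ∈ S, φ v = 1) := by
  have tw : ∀ x : X, ∃ p : P, p.1.1 = x := by
    intro x
    obtain ⟨i, h, -⟩ := three x.1 x x
    exact ⟨⟨(x, (x.1, i)), h.symm, G0.irrefl⟩, rfl⟩
  apply equi_of_strong Gᶜ tri
  · intro p
    rw [SimpleGraph.isClique_compl]
    exact tri_indep p
  · rintro (x | p)
    · obtain ⟨p, hp⟩ := tw x
      exact ⟨p, (mem_tri_inl p x).2 (Or.inl hp.symm)⟩
    · exact ⟨p, (mem_tri_inr p p).2 rfl⟩
  · rintro (x | p) (y | q) ⟨h1, h2⟩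
    · exact ⟨⟨(x, y), fun e => h1 (congrArg Sum.inl e), h2⟩, (mem_tri_inl _ _).2 (Or.inl rfl),
        (mem_tri_inl _ _).2 (Or.inr rfl)⟩
    · refine ⟨q, (mem_tri_inl _ _).2 ?_, (mem_tri_inr _ _).2 rfl⟩
      by_contra hc
      push Not at hc
      exact h2 hc
    · refine ⟨p, (mem_tri_inr _ _).2 rfl, (mem_tri_inl _ _).2 ?_⟩
      by_contra hc
      push Not at hc
      exact h2 hc
    · exact absurd (fun e => h1 (congrArg Sum.inr e)) h2
  · obtain ⟨p, -⟩ := tw (0, 0)
    exact ⟨p⟩
  · intro S hS p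
    by_contra hc
    push Not at hc
    have hadj : ∀ v ∈ S, G.Adj (.inr p) v := by
      rintro (x | q) hv
      · have := hc _ hv
        rw [mem_tri_inl] at this
        push Not at this
        exact this
      · have := hc _ hv
        rw [mem_tri_inr] at this
        exact Ne.symm this
    have h1 : Gᶜ.IsIndepSet ((insert (.inr p) S : Finset V) : Set V) := by
      have h0 := hS.prop
      rw [SimpleGraph.isIndepSet_compl] at h0 ⊢
      rw [coe_insert]
      exact h0.insert (fun v hv _ => hadj v hv)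
    exact hc _ (hS.le_of_ge h1 (subset_insert _ _) (mem_insert_self _ _)) ((mem_tri_inr p p).2 rfl)

lemma star_sum : ∀ x : Fin 9, ∑ a ∈ univ.filter
    (fun a : Fin 14 => Pool.Agent.H.MP_59918e_co.st x.val a.val = true), w0 a = 154 := by
  decide +kernel

lemma not_gp : ¬ ∃ n : ℕ, ∃ U : V → Finset (Fin n),
    (∀ v, (U v).Nonempty) ∧
    (∀ u v, u ≠ v → (G.Adj u v ↔ ¬ Disjoint (U u) (U v))) ∧
    ∀ S : Finset V, Maximal (fun s : Finset V => G.IsIndepSet (s : Set V)) S →
      (∀ u ∈ S, ∀ v ∈ S, u ≠ v → Disjoint (U u) (U v)) ∧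
      S.biUnion U = Finset.univ := by
  rintro ⟨n, U, h1, h2, h3⟩
  obtain ⟨y, -⟩ := h1 (.inl (0, 0))
  let K : Finset (Fin 14) := univ.filter (fun a => ∃ i, y ∈ U (.inl (a, i)))
  have hK : G0.IsClique (K : Set (Fin 14)) := by
    intro a ha b hb hne
    simp only [K, coe_filter, mem_univ, true_and, Set.mem_ofPred_eq] at ha hb
    obtain ⟨i, hi⟩ := ha
    obtain ⟨j, hj⟩ := hb
    exact (h2 (.inl (a, i)) (.inl (b, j)) (by simp [hne])).2
      (Finset.not_disjoint_iff.2 ⟨y, hi, hj⟩)
  obtain ⟨x, hx⟩ := Pool.Agent.H.MP_59918e_co.clique_miss K hK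
  have hm := blow_max ((Pool.Agent.H.MP_59918e_co.equi _).2 (star_sum x))
  have := (h3 _ hm).2
  have hy : y ∈ (blow (univ.filter
      (fun a : Fin 14 => Pool.Agent.H.MP_59918e_co.st x.val a.val = true))).biUnion U := by
    rw [this]; exact mem_univ _
  rw [mem_biUnion] at hy
  obtain ⟨v, hv, hyv⟩ := hy
  rcases v with ⟨a, i⟩ | q
  · rw [mem_blow_inl] at hv
    simp only [mem_filter, mem_univ, true_and] at hv
    rw [hx a (by simp only [K, mem_filter, mem_univ, true_and]; exact ⟨i, hyv⟩)] at hv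
    simp at hv
  · exact not_mem_blow_inr _ _ hv

end Pool.Agent.H.MP_a8adbc_co
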